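import Pool.Agent.H13.RE.StepB

/-!
# Intersections of quadrics over `C₁` fields: induction on the number of quadrics

For two points `P, x` of an intersection `X` of `m + 1` quadrics, the line `Px` lies in `m`
independent quadrics of the linear system. The lines through `P` in these `m` quadrics form an
intersection of `m` quadrics, and the residual intersection with the last quadric maps it to `X`.
-/

set_option autoImplicit false

namespace Pool.Agent.H17.IQ

open MvPolynomial H13.RE

universe u

variable {k : Type u} [Field k] {N m : ℕ}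

/-- points of the system: linear forms `L`, quadratic forms `q` -/
def Pt (L : List (MvPolynomial (Fin N) k)) (q : Fin m → MvPolynomial (Fin N) k)
    (x : Fin N → k) : Prop :=
  x ≠ 0 ∧ (∀ l ∈ L, eval x l = 0) ∧ ∀ i, eval x (q i) = 0

/-- linked by a rational curve -/
def Lk (L : List (MvPolynomial (Fin N) k)) (q : Fin m → MvPolynomial (Fin N) k)
    (x y : Fin N → k) : Prop :=
  ∃ c : Fin N → Polynomial k, (∀ l ∈ L, aeval c l = 0) ∧ (∀ i, aeval c (q i) = 0) ∧
    (∃ a : k, a ≠ 0 ∧ (fun j => (c j).eval 0) = a • x) ∧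
    (∃ b : k, b ≠ 0 ∧ (fun j => (c j).eval 1) = b • y)

/-- R-equivalence of vectors -/
def RE (L : List (MvPolynomial (Fin N) k)) (q : Fin m → MvPolynomial (Fin N) k)
    (x y : Fin N → k) : Prop :=
  Relation.EqvGen (fun a b => Pt L q a ∧ Pt L q b ∧ Lk L q a b) x y

lemma RE.pt_iff {L : List (MvPolynomial (Fin N) k)} {q : Fin m → MvPolynomial (Fin N) k}
    {x y : Fin N → k} (h : RE L q x y) : Pt L q x ↔ Pt L q y := by
  unfold RE at h
  induction h with
  | rel a b hab => exact ⟨fun _ => hab.2.1, fun _ => hab.1⟩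
  | refl a => exact Iff.rfl
  | symm a b _ ih => exact ih.symm
  | trans a b c _ _ ih1 ih2 => exact ih1.trans ih2

/-- the bilinear form of `q` at `P` -/
noncomputable def bf (q : MvPolynomial (Fin N) k) (P : Fin N → k) : MvPolynomial (Fin N) k :=
  pol q 2 P 1

lemma bf_hom {q : MvPolynomial (Fin N) k} (hq : q.IsHomogeneous 2) (P : Fin N → k) :
    (bf q P).IsHomogeneous 1 := pol_hom hq P 1

lemma quad_comb {q : MvPolynomial (Fin N) k} (hq : q.IsHomogeneous 2) {P : Fin N → k}
    (h0 : eval P q = 0) (a b : Polynomial k) (v : Fin N → Polynomial k) :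
    aeval (comb P a b v) q = a * b * aeval v (bf q P) + b ^ 2 * aeval v q := by
  have h := comb_two (le_refl 2) hq h0 (v := v) (fun i hi => absurd hi (Nat.not_lt_zero _)) a b
  rw [h]
  simp [bf]

lemma quad_comb_k {q : MvPolynomial (Fin N) k} (hq : q.IsHomogeneous 2) {P : Fin N → k}
    (h0 : eval P q = 0) (a b : k) (v : Fin N → k) :
    eval (a • P + b • v) q = a * b * eval v (bf q P) + b ^ 2 * eval v q := by
  rw [pol_spec' hq]
  rw [Finset.sum_range_succ, Finset.sum_range_succ, Finset.sum_range_succ, Finset.sum_range_zero,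
    pol_zero hq, pol_top hq, h0]
  simp [bf]

lemma lin_comb {l : MvPolynomial (Fin N) k} (hl : l.IsHomogeneous 1) (P : Fin N → k)
    (a b : Polynomial k) (v : Fin N → Polynomial k) :
    aeval (comb P a b v) l = a * Polynomial.C (eval P l) + b * aeval v l := by
  rw [comb_spec hl, Finset.sum_range_succ, Finset.sum_range_succ, Finset.sum_range_zero,
    pol_zero_A hl, pol_top_A hl]
  simp

lemma lin_comb_k {l : MvPolynomial (Fin N) k} (hl : l.IsHomogeneous 1) (a b : k)
    (P v : Fin N → k) : eval (a • P + b • v) l = a * eval P l + b * eval v l := by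
  rw [pol_spec' hl, Finset.sum_range_succ, Finset.sum_range_succ, Finset.sum_range_zero,
    pol_zero hl, pol_top hl]
  simp

lemma lin_smul {l : MvPolynomial (Fin N) k} (hl : l.IsHomogeneous 1) (a : k)
    (P : Fin N → k) : eval (a • P) l = a * eval P l := by
  have := lin_comb_k hl a 0 P 0
  simpa using this

lemma quad_smul {q : MvPolynomial (Fin N) k} (hq : q.IsHomogeneous 2) (a : k)
    (P : Fin N → k) : eval (a • P) q = a ^ 2 * eval P q := by
  have := pol_spec' hq P a 0 0
  rw [Finset.sum_range_succ, Finset.sum_range_succ, Finset.sum_range_succ, Finset.sum_range_zero,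
    pol_zero hq] at this
  simpa using this

lemma bf_self {q : MvPolynomial (Fin N) k} (hq : q.IsHomogeneous 2) {P : Fin N → k}
    (h0 : eval P q = 0) : eval P (bf q P) = 0 := by
  have h := quad_comb_k hq h0 1 1 P
  rw [h0, ← add_smul, quad_smul hq, h0] at h
  simpa using h.symm

lemma bf_eq {q : MvPolynomial (Fin N) k} (hq : q.IsHomogeneous 2) {P v : Fin N → k}
    (h0 : eval P q = 0) (h1 : eval v q = 0) : eval v (bf q P) = eval (P + v) q := by
  have h := quad_comb_k hq h0 1 1 v
  rw [one_smul, one_smul, h1] at h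
  rw [h]
  ring

end Pool.Agent.H17.IQ
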