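import Pool.Agent.H17.IQ.NF
import Pool.Agent.H17.IQ.Core

/-!
# Linear and quadratic forms; finite extensions
-/

set_option autoImplicit false

namespace Pool.Agent.H17.IQ

open MvPolynomial H13.RE

universe u

/-- linear forms as linear maps -/
noncomputable def linM {k : Type u} [Field k] {N : ℕ} (l : MvPolynomial (Fin N) k)
    (hl : l.IsHomogeneous 1) : (Fin N → k) →ₗ[k] k where
  toFun x := eval x l
  map_add' x y := by
    have := lin_comb_k hl 1 1 x y
    simpa using this
  map_smul' a x := by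
    rw [lin_smul hl, smul_eq_mul, RingHom.id_apply]

/-- linear forms and `r` quadratic forms have a common zero -/
theorem HQ.lin {k : Type u} [Field k] (h : HQ k) {N r : ℕ} (L : List (MvPolynomial (Fin N) k))
    (hL : ∀ l ∈ L, l.IsHomogeneous 1) (f : Fin r → MvPolynomial (Fin N) k)
    (hf : ∀ i, (f i).IsHomogeneous 2) (hn : L.length + 2 * r < N) :
    ∃ x : Fin N → k, x ≠ 0 ∧ (∀ l ∈ L, eval x l = 0) ∧ ∀ i, eval x (f i) = 0 := by
  obtain ⟨A, hA⟩ : ∃ A : (Fin N → k) →ₗ[k] (Fin L.length → k),
      A = LinearMap.pi fun i => linM (L.get i) (hL _ (List.get_mem L i)) := ⟨_, rfl⟩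
  have hAv : ∀ (v : Fin N → k) (i : Fin L.length), A v i = eval v (L.get i) := by
    intro v i
    rw [hA]
    rfl
  have hdim : 2 * r < Module.finrank k (LinearMap.ker A) := by
    have h1 := LinearMap.finrank_range_add_finrank_ker A
    have h2 : Module.finrank k (LinearMap.range A) ≤ L.length := by
      have := Submodule.finrank_le (LinearMap.range A)
      rwa [Module.finrank_fin_fun] at this
    rw [Module.finrank_fin_fun] at h1
    omega
  obtain ⟨D, hD⟩ : ∃ D, D = Module.finrank k (LinearMap.ker A) := ⟨_, rfl⟩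
  obtain ⟨b⟩ : Nonempty (Module.Basis (Fin D) k (LinearMap.ker A)) := by
    rw [hD]
    exact ⟨Module.finBasis k _⟩
  obtain ⟨g, hg⟩ : ∃ g : Fin N → MvPolynomial (Fin D) k,
      g = fun j => ∑ s, C ((b s : Fin N → k) j) * X s := ⟨_, rfl⟩
  have hgh : ∀ j, (g j).IsHomogeneous 1 := by
    intro j
    rw [hg]
    apply IsHomogeneous.sum
    intro s _
    have := (isHomogeneous_C (Fin D) ((b s : Fin N → k) j)).mul (isHomogeneous_X k s)
    rwa [zero_add] at this
  obtain ⟨y, hy0, hy⟩ := h D r (fun i => aeval g (f i)) (fun i => by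
    have := (hf i).aeval g (n := 1) hgh
    rwa [one_mul] at this) (hD ▸ hdim)
  have hval : (fun j => eval y (g j)) = ((∑ s, y s • b s : LinearMap.ker A) : Fin N → k) := by
    funext j
    rw [hg]
    simp [map_sum, Finset.sum_apply, mul_comm]
  refine ⟨((∑ s, y s • b s : LinearMap.ker A) : Fin N → k), fun h0 => hy0 ?_, fun l hl => ?_,
    fun i => ?_⟩
  · have h1 : (∑ s, y s • b s : LinearMap.ker A) = 0 := Subtype.ext h0
    funext s
    exact Fintype.linearIndependent_iff.mp b.linearIndependent y h1 s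
  · obtain ⟨i, hi⟩ := List.get_of_mem hl
    have h1 := (∑ s, y s • b s : LinearMap.ker A).2
    rw [LinearMap.mem_ker] at h1
    have h2 := congrFun h1 i
    rw [hAv] at h2
    rw [← hi]
    exact h2
  · have h1 := hy i
    rw [eval_comp, hval] at h1
    exact h1

/-- the property passes to finite extensions -/
theorem hq_ext {k E : Type u} [Field k] [Field E] [Algebra k E] [FiniteDimensional k E]
    (h : HQ k) : HQ E := by
  intro N r f hf hsum
  obtain ⟨m, hm⟩ : ∃ m, m = Module.finrank k E := ⟨_, rfl⟩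
  have hm0 : 0 < m := by
    rw [hm]
    exact Module.finrank_pos
  obtain ⟨b⟩ : Nonempty (Module.Basis (Fin m) k E) := by
    rw [hm]
    exact ⟨Module.finBasis k E⟩
  obtain ⟨g, hg⟩ : ∃ g : Fin N → MvPolynomial (Fin N × Fin m) E,
      g = fun j => ∑ t, C (b t) * X (j, t) := ⟨_, rfl⟩
  have hghom : ∀ j, (g j).IsHomogeneous 1 := by
    intro j
    rw [hg]
    apply IsHomogeneous.sum
    intro t _
    have := (isHomogeneous_C (Fin N × Fin m) (b t)).mul (isHomogeneous_X E (j, t))
    rwa [zero_add] at this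
  obtain ⟨Φ, hΦ⟩ : ∃ Φ : Fin r → MvPolynomial (Fin N × Fin m) E, Φ = fun i => aeval g (f i) :=
    ⟨_, rfl⟩
  have hΦhom : ∀ i, (Φ i).IsHomogeneous 2 := by
    intro i
    rw [hΦ]
    have := (hf i).aeval g (n := 1) hghom
    rwa [one_mul] at this
  obtain ⟨y', hy0, hy⟩ := h (N * m) (r * m)
    (fun q => rename finProdFinEquiv (coP b (Φ (finProdFinEquiv.symm q).1)
      (finProdFinEquiv.symm q).2))
    (fun q => (coP_hom b (hΦhom _) _).rename_isHomogeneous) (by nlinarith)
  obtain ⟨y, hyy⟩ : ∃ y : Fin N × Fin m → k, y = y' ∘ finProdFinEquiv := ⟨_, rfl⟩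
  have hy1 : ∀ i l, eval y (coP b (Φ i) l) = 0 := by
    intro i l
    have := hy (finProdFinEquiv (i, l))
    rw [eval_rename] at this
    simpa [hyy] using this
  have hY : (fun j => eval (fun p => algebraMap k E (y p)) (g j)) =
      fun j => ∑ t, y (j, t) • b t := by
    funext j
    rw [hg]
    simp only [map_sum, map_mul, eval_C, eval_X]
    refine Finset.sum_congr rfl fun t _ => ?_
    rw [Algebra.smul_def, mul_comm]
  refine ⟨fun j => ∑ t, y (j, t) • b t, ?_, fun i => ?_⟩
  · intro h0
    apply hy0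
    funext q
    have h1 := congrFun h0 (finProdFinEquiv.symm q).1
    have h2 := Fintype.linearIndependent_iff.mp b.linearIndependent _ h1
      (finProdFinEquiv.symm q).2
    have h3 : y ((finProdFinEquiv.symm q).1, (finProdFinEquiv.symm q).2) = y' q := by
      rw [hyy]
      exact congrArg y' (finProdFinEquiv.apply_symm_apply q)
    exact h3.symm.trans h2
  · have h1 := eval_coP b (Φ i) y
    rw [Finset.sum_eq_zero] at h1
    · rw [hΦ] at h1
      simp only at h1
      rw [eval_comp, hY] at h1
      exact h1.symm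
    · intro l _
      rw [hy1 i l, map_zero, zero_mul]

end Pool.Agent.H17.IQ
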