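import Pool.Agent.H17.IQ.Step
import Pool.Agent.H17.IQ.HQ

/-!
# The induction
-/

set_option autoImplicit false

namespace Pool.Agent.H17.IQ

open MvPolynomial H13.RE

universe u

variable {k : Type u} [Field k]

/-- the number of variables needed for `m` quadrics -/
def rho : ℕ → ℕ
  | 0 => 1
  | m + 1 => max (rho m + (m + 1)) (3 * (m + 1))

lemma rho_le (m : ℕ) : rho m ≤ m * (m + 1) / 2 + 3 := by
  induction m with
  | zero => simp [rho]
  | succ m ih =>
    have h1 : (m + 1) * (m + 1 + 1) / 2 = m * (m + 1) / 2 + (m + 1) := by
      have : (m + 1) * (m + 1 + 1) = m * (m + 1) + (m + 1) * 2 := by ring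
      rw [this, Nat.add_mul_div_right _ _ (by norm_num)]
    have h2 : rho (m + 1) = max (rho m + (m + 1)) (3 * (m + 1)) := rfl
    rw [h1, h2]
    apply max_le
    · omega
    · rcases Nat.lt_or_ge m 2 with h | h
      · interval_cases m <;> simp
      · have h3 : 2 * m ≤ m * (m + 1) / 2 + 1 := by
          have : 2 * (2 * m) ≤ m * (m + 1) + 2 := by nlinarith
          omega
        omega

/-- a linear form with value `1` at `P` -/
lemma exists_dual {N : ℕ} {P : Fin N → k} (hP : P ≠ 0) :
    ∃ φ : MvPolynomial (Fin N) k, φ.IsHomogeneous 1 ∧ eval P φ = 1 := by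
  obtain ⟨j, hj⟩ := Function.ne_iff.mp hP
  refine ⟨C (P j)⁻¹ * X j, ?_, ?_⟩
  · have := (isHomogeneous_C (Fin N) (P j)⁻¹).mul (isHomogeneous_X k j)
    rwa [zero_add] at this
  · rw [map_mul, eval_C, eval_X]
    exact inv_mul_cancel₀ hj

theorem core (hS : HQ k) : ∀ (m : ℕ) {N : ℕ} (L : List (MvPolynomial (Fin N) k))
    (q : Fin m → MvPolynomial (Fin N) k), (∀ l ∈ L, l.IsHomogeneous 1) →
    (∀ i, (q i).IsHomogeneous 2) → L.length + rho m ≤ N →
    ∀ P x : Fin N → k, Pt L q P → Pt L q x → RE L q P x := by
  intro m
  induction m with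
  | zero =>
    intro N L q hL hq hn P x hP hx
    refine Relation.EqvGen.rel _ _ ⟨hP, hx, comb P (1 - Polynomial.X) Polynomial.X (emb x), ?_,
      fun i => i.elim0, ⟨1, one_ne_zero, ?_⟩, ⟨1, one_ne_zero, ?_⟩⟩
    · intro l hl
      rw [lin_comb (hL l hl), hP.2.1 l hl, aeval_emb, hx.2.1 l hl]
      simp
    · rw [comb_emb_eval]
      simp
    · rw [comb_emb_eval]
      simp
  | succ m ih =>
    intro N L q hL hq hn P x hP hx
    by_cases hall : ∀ i, eval x (bf (q i) P) = 0
    · refine Relation.EqvGen.rel _ _ ⟨hP, hx, comb P (1 - Polynomial.X) Polynomial.X (emb x), ?_,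
        ?_, ⟨1, one_ne_zero, ?_⟩, ⟨1, one_ne_zero, ?_⟩⟩
      · intro l hl
        rw [lin_comb (hL l hl), hP.2.1 l hl, aeval_emb, hx.2.1 l hl]
        simp
      · intro i
        rw [quad_comb (hq i) (hP.2.2 i), aeval_emb, aeval_emb, hx.2.2 i, hall i]
        simp
      · rw [comb_emb_eval]
        simp
      · rw [comb_emb_eval]
        simp
    · push Not at hall
      obtain ⟨i0, hi0⟩ := hall
      set q0 := q i0 with hq0
      -- the other quadrics of the system containing the line
      set γ : Fin m → k := fun i => eval x (bf (q (i0.succAbove i)) P) / eval x (bf q0 P) with hγ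
      set q' : Fin m → MvPolynomial (Fin N) k :=
        fun i => q (i0.succAbove i) - C (γ i) * q0 with hq'
      have hq'h : ∀ i, (q' i).IsHomogeneous 2 := by
        intro i
        apply (hq _).sub
        have := (isHomogeneous_C (Fin N) (γ i)).mul (hq i0)
        rwa [zero_add] at this
      have hz : ∀ v : Fin N → Polynomial k, (∀ i, aeval v (q i) = 0) ↔
          (aeval v q0 = 0 ∧ ∀ i, aeval v (q' i) = 0) := by
        intro v
        constructor
        · intro h
          refine ⟨h i0, fun i => ?_⟩
          rw [hq']
          simp only [map_sub, map_mul]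
          rw [h (i0.succAbove i), h i0]
          simp
        · rintro ⟨h0, h⟩ i
          rcases Fin.eq_self_or_eq_succAbove i0 i with hi | ⟨j, hj⟩
          · rw [hi]
            exact h0
          · have h1 := h j
            rw [hq'] at h1
            simp only [map_sub, map_mul] at h1
            rw [h0, mul_zero, sub_zero, ← hj] at h1
            exact h1
      obtain ⟨φ, hφ, hφP⟩ := exists_dual hP.1
      have hPq' : ∀ i, eval P (q' i) = 0 := by
        intro i
        rw [hq']
        simp only [map_sub, map_mul]
        rw [hP.2.2, hP.2.2 i0]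
        simp
      have S : Sit L q q' q0 P φ :=
        ⟨hL, hq'h, hq i0, hφ, hP.1, hP.2.1, hPq', hP.2.2 i0, hφP, hz⟩
      have hxq' : ∀ i, eval x (q' i) = 0 := by
        intro i
        rw [hq']
        simp only [map_sub, map_mul]
        rw [hx.2.2, hx.2.2 i0]
        simp
      have hxb : ∀ i, eval x (bf (q' i) P) = 0 := by
        intro i
        rw [bf_eq (hq'h i) (hPq' i) (hxq' i), hq']
        simp only [map_sub, map_mul, eval_C]
        rw [← bf_eq (hq _) (hP.2.2 _) (hx.2.2 _), ← bf_eq (hq i0) (hP.2.2 i0) (hx.2.2 i0), hγ]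
        show _ - _ / eval x (bf q0 P) * eval x (bf q0 P) = 0
        rw [div_mul_cancel₀ _ hi0, sub_self]
      -- the line through `P` and `x`
      set a := eval x φ with ha
      set R := (-a) • P + (1 : k) • x with hR
      have hlin : ∀ l : MvPolynomial (Fin N) k, l.IsHomogeneous 1 →
          eval R l = -a * eval P l + eval x l := by
        intro l hl
        rw [hR, lin_comb_k hl, one_mul]
      have hx2 : x = a • P + (1 : k) • R := by
        rw [hR]
        module
      have hR0 : R ≠ 0 := by
        intro h
        rw [h, smul_zero, add_zero] at hx2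
        apply hi0
        rw [hx2, lin_smul (bf_hom (hq i0) P), bf_self (hq i0) (hP.2.2 i0), mul_zero]
      have hRq : ∀ p : MvPolynomial (Fin N) k, p.IsHomogeneous 2 → eval P p = 0 →
          eval x p = 0 → eval R p = -a * eval x (bf p P) := by
        intro p hp h1 h2
        rw [hR, quad_comb_k hp h1, h2]
        ring
      have hRpt : Pt (cone L q' P φ) q' R := by
        refine ⟨hR0, ?_, ?_⟩
        · intro l hl
          unfold cone at hl
          rcases List.mem_cons.mp hl with h | h
          · rw [h, hlin φ hφ, hφP, ← ha]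
            ring
          · rcases List.mem_append.mp h with h | h
            · rw [hlin l (hL l h), hP.2.1 l h, hx.2.1 l h]
              ring
            · rw [List.mem_ofFn] at h
              obtain ⟨i, rfl⟩ := h
              rw [hlin _ (bf_hom (hq'h i) P), bf_self (hq'h i) (hPq' i), hxb i]
              ring
        · intro i
          rw [hRq _ (hq'h i) (hPq' i) (hxq' i), hxb i, mul_zero]
      have hxo : Over q0 P R x := by
        refine ⟨hx.1, a, 1, hx2, ?_⟩
        rw [hlin _ (bf_hom (hq i0) P), bf_self (hq i0) (hP.2.2 i0),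
          hRq _ (hq i0) (hP.2.2 i0) (hx.2.2 i0)]
        ring
      -- the line through `P` tangent to the last quadric
      have hcl : ∀ l ∈ cone L q' P φ, l.IsHomogeneous 1 := by
        intro l hl
        unfold cone at hl
        rcases List.mem_cons.mp hl with h | h
        · rw [h]
          exact hφ
        · rcases List.mem_append.mp h with h | h
          · exact hL l h
          · rw [List.mem_ofFn] at h
            obtain ⟨i, rfl⟩ := h
            exact bf_hom (hq'h i) P
      have hlen : (cone L q' P φ).length = L.length + m + 1 := by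
        unfold cone
        simp
      have hrho : rho (m + 1) = max (rho m + (m + 1)) (3 * (m + 1)) := rfl
      have hrho1 : rho m + (m + 1) ≤ rho (m + 1) := by
        rw [hrho]
        exact le_max_left _ _
      have hrho2 : 3 * (m + 1) ≤ rho (m + 1) := by
        rw [hrho]
        exact le_max_right _ _
      obtain ⟨T, hT0, hTl, hTq⟩ := hS.lin ((bf q0 P) :: cone L q' P φ) (by
        intro l hl
        rcases List.mem_cons.mp hl with h | h
        · rw [h]
          exact bf_hom (hq i0) P
        · exact hcl l h) q' hq'h (by
        rw [List.length_cons, hlen]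
        omega)
      have hTpt : Pt (cone L q' P φ) q' T :=
        ⟨hT0, fun l hl => hTl l (List.mem_cons_of_mem _ hl), hTq⟩
      have hPo : Over q0 P T P := by
        refine ⟨hP.1, 1, 0, by rw [one_smul, zero_smul, add_zero], ?_⟩
        rw [hTl _ List.mem_cons_self]
        ring
      have hre : RE (cone L q' P φ) q' T R :=
        ih (cone L q' P φ) q' hcl hq'h (by rw [hlen]; omega) T R hTpt hRpt
      exact S.transport hre hTpt P x hPo hxo

end Pool.Agent.H17.IQ
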