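import Pool.Agent.H13.RE.LemE
import Pool.Agent.H17.IQ.Ind

/-!
# From R-equivalence over finite extensions to rational equivalence of zero-cycles
-/

set_option autoImplicit false

namespace Pool.Agent.H17.IQ

open MvPolynomial H13.RE

universe u

variable {k : Type u} [Field k] {n m : ℕ} {f : Fin m → MvPolynomial (Fin (n + 1)) k}
  {E : IntermediateField k (AlgebraicClosure k)} [hE : FiniteDimensional k E]

/-- the forms over `E` -/
noncomputable def fE (f : Fin m → MvPolynomial (Fin (n + 1)) k)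
    (E : IntermediateField k (AlgebraicClosure k)) : Fin m → MvPolynomial (Fin (n + 1)) E :=
  fun i => MvPolynomial.map (algebraMap k E) (f i)

omit hE in
lemma single_smul (σ : E →ₐ[k] AlgebraicClosure k) {P : Fin (n + 1) → E} (hP : P ≠ 0) {a : E}
    (_ha : a ≠ 0) (hv : (fun j => σ (a * P j)) ≠ 0) :
    Finsupp.single (Projectivization.mk (AlgebraicClosure k) (fun j => σ (a * P j)) hv) (1 : ℤ) =
      cj σ P hP := by
  unfold cj
  congr 1
  refine (Projectivization.mk_eq_mk_iff' _ _ _ _ _).mpr ⟨σ a, ?_⟩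
  funext j
  simp

lemma lk_rat {P Q : Fin (n + 1) → E} (hP : P ≠ 0) (hQ : Q ≠ 0)
    (h : Lk [] (fE f E) P Q) : pt E P hP - pt E Q hQ ∈ Rat f := by
  obtain ⟨c, -, hc, ⟨a, ha0, ha⟩, ⟨b, hb0, hb⟩⟩ := h
  rw [pt_eq, pt_eq, ← Finset.sum_sub_distrib]
  apply AddSubgroup.subset_closure
  have hval : ∀ (σ : E →ₐ[k] AlgebraicClosure k) (τ a : E) (P : Fin (n + 1) → E) (hP : P ≠ 0),
      a ≠ 0 → (fun j => (c j).eval τ) = a • P →
      IsCyc (spec σ.toRingHom τ (X 1 : MvPolynomial (Fin 2) (Polynomial E)))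
        (fun j => spec σ.toRingHom τ (C (c j))) (cj σ P hP) := by
    intro σ τ a P hP ha h
    have e1 : spec σ.toRingHom τ (X 1 : MvPolynomial (Fin 2) (Polynomial E)) = X 1 := by
      unfold spec
      rw [MvPolynomial.map_X]
    have hv : (fun j => σ (a * P j)) ≠ 0 := by
      intro h0
      apply hP
      funext j
      have h1 := congrFun h0 j
      have h2 : a * P j = 0 := σ.toRingHom.injective (h1.trans (map_zero σ).symm)
      exact (mul_eq_zero.mp h2).resolve_left ha
    rw [e1, ← single_smul σ hP ha hv]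
    apply isCyc_X1
    intro j
    unfold spec
    rw [MvPolynomial.map_C, eval_C]
    have := congrFun h j
    show σ ((c j).eval τ) = σ (a * P j)
    rw [this]
    rfl
  refine ⟨E, hE, 0, 1, X 1, fun j => C (c j), fun σ => cj σ P hP, fun σ => cj σ Q hQ,
    isHomogeneous_X _ _, fun j => isHomogeneous_C _ _, fun i => ?_,
    fun σ => hval σ 0 a P hP ha0 ha, fun σ => hval σ 1 b Q hQ hb0 hb, rfl⟩
  have e1 : aeval (fun j => (C (c j) : MvPolynomial (Fin 2) (Polynomial E))) (f i) =
      C (aeval c (fE f E i)) := by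
    rw [← aeval_C_comp]
    unfold fE
    rw [MvPolynomial.aeval_map_algebraMap]
  rw [e1, hc i, map_zero]
  exact dvd_zero _

lemma re_rat {P Q : Fin (n + 1) → E} (h : RE [] (fE f E) P Q) :
    ∀ (hP : Pt [] (fE f E) P) (hQ : Pt [] (fE f E) Q), pt E P hP.1 - pt E Q hQ.1 ∈ Rat f := by
  have hh := h
  unfold RE at h
  induction h with
  | rel a b hab =>
    intro ha hb
    exact lk_rat ha.1 hb.1 hab.2.2
  | refl a =>
    intro ha hb
    rw [sub_self]
    exact (Rat f).zero_mem
  | symm a b h ih =>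
    intro hb ha
    have := (Rat f).neg_mem (ih h ha hb)
    rwa [neg_sub] at this
  | trans a b c h1 h2 ih1 ih2 =>
    intro ha hc
    have hb : Pt [] (fE f E) b := (RE.pt_iff h1).mp ha
    have := (Rat f).add_mem (ih1 h1 ha hb) (ih2 h2 hb hc)
    rwa [sub_add_sub_cancel] at this

end Pool.Agent.H17.IQ
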