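import Pool.Agent.H66.IQ.TD
import Pool.Agent.H10.IPF.GL2

/-!
# Board iq_modules, row GL2
-/

set_option autoImplicit false

namespace Pool.Agent.H17.IQ

open Finset Pool.Agent.H6.NB Pool.Agent.H66.IQ
open Pool.Agent.H66.IP (smx gw fp dd c4 tht)
open Pool.Agent.H10.IPF.GL2

/-- GL2: the second level of the Fourier spectrum of a game. -/
theorem pf_GL2 (hPTW : T_PTW) (hRSM : T_RSM) : T_GL2 := by
  intro V _ _ β k d q t hβ hk hc hd hq
  have hβ0 : 0 < β := lt_of_lt_of_le one_pos hβ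
  have hp : (0 : ℝ) < 2 ^ Fintype.card V := by positivity
  have hR : ∀ x z y, 0 ≤ t.rr β x z y := fun x z y =>
    ((hRSM V β t y hβ0).1 x z).1.trans ((hRSM V β t y hβ0).1 x z).2
  have h1 := pairs (fun S => |hat (t.sv β) S|) fun S => abs_nonneg _
  have h2 : ∀ p ∈ (univ : Finset V).offDiag, |hat (t.sv β) {p.1, p.2}| ≤
      2000 * β * (k : ℝ) ^ 2 * ((∑ y, t.rr β p.1 p.2 y) / 2 ^ Fintype.card V) := by
    intro p hpp
    have hne := (mem_offDiag.1 hpp).2.2
    have h3 := hat_le (t.sv β) hne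
    have h4 : ∑ y, |dd p.1 p.2 (t.sv β) y| ≤
        ∑ y, 2000 * β * (k : ℝ) ^ 2 * c4 p.1 p.2 (t.rr β p.1 p.2) y :=
      sum_le_sum fun y _ => hPTW V β k t y p.1 p.2 hβ hk hc hne
    rw [← mul_sum, sum_c4] at h4
    have h5 := div_le_div_of_nonneg_right h4 hp.le
    have h6 : 2000 * β * (k : ℝ) ^ 2 * (4 * ∑ y, t.rr β p.1 p.2 y) / 2 ^ Fintype.card V =
        4 * (2000 * β * (k : ℝ) ^ 2 * ((∑ y, t.rr β p.1 p.2 y) / 2 ^ Fintype.card V)) := by
      ring
    linarith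
  have h3 : ∑ p ∈ (univ : Finset V).offDiag, |hat (t.sv β) {p.1, p.2}| ≤
      2000 * β * (k : ℝ) ^ 2 * (((d : ℝ) + 1) * (4 * (q : ℝ) ^ 2)) := by
    refine (sum_le_sum h2).trans ?_
    rw [← mul_sum]
    refine mul_le_mul_of_nonneg_left ?_ (by positivity)
    rw [← sum_div, div_le_iff₀ hp]
    calc ∑ p ∈ (univ : Finset V).offDiag, ∑ y, t.rr β p.1 p.2 y ≤
          ∑ p : V × V, ∑ y, t.rr β p.1 p.2 y :=
          sum_le_sum_of_subset_of_nonneg (subset_univ _)
            fun p _ _ => sum_nonneg fun y _ => hR _ _ _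
      _ = ∑ y, ∑ x, ∑ z, t.rr β x z y := by
          rw [sum_comm]
          refine sum_congr rfl fun y _ => ?_
          rw [Fintype.sum_prod_type]
      _ ≤ ∑ y : V → Bool, ((d : ℝ) + 1) * (4 * (q : ℝ) ^ 2) := by
          refine sum_le_sum fun y _ => ((hRSM V β t y hβ0).2).trans ?_
          have hd' : (t.dp : ℝ) ≤ d := by exact_mod_cast hd
          have hq' : (t.wd : ℝ) ≤ q := by exact_mod_cast hq
          have h4 : (t.wd : ℝ) ^ 2 ≤ (q : ℝ) ^ 2 := pow_le_pow_left₀ (by positivity) hq' 2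
          refine mul_le_mul (by linarith) (by linarith) (by positivity) (by positivity)
      _ = ((d : ℝ) + 1) * (4 * (q : ℝ) ^ 2) * 2 ^ Fintype.card V := by
          rw [sum_const, card_univ, Fintype.card_fun, Fintype.card_bool, nsmul_eq_mul]
          push_cast
          ring
  have h4 : 2 * L12 (t.sv β) ≤ 2000 * β * (k : ℝ) ^ 2 * (((d : ℝ) + 1) * (4 * (q : ℝ) ^ 2)) :=
    h1.trans h3
  linarith

end Pool.Agent.H17.IQ
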