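import Pool.Agent.H13.RE.ScalarRes
import Pool.Agent.H81.CY.Zero

/-!
# Systems of quadratic forms over `C₁` fields (Lang, Nagata)
-/

set_option autoImplicit false

namespace Pool.Agent.H17.IQ

open MvPolynomial H13.RE

universe u

/-- The field `k` is `C₁`. -/
def C1 (k : Type u) [Field k] : Prop :=
  ∀ (N d : ℕ) (f : MvPolynomial (Fin N) k), 1 ≤ d → f.IsHomogeneous d → d < N →
    ∃ x : Fin N → k, x ≠ 0 ∧ eval x f = 0

/-- `r` quadratic forms in more than `2 r` variables have a common nontrivial zero. -/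
def HQ (k : Type u) [Field k] : Prop :=
  ∀ (N r : ℕ) (f : Fin r → MvPolynomial (Fin N) k), (∀ i, (f i).IsHomogeneous 2) → 2 * r < N →
    ∃ x : Fin N → k, x ≠ 0 ∧ ∀ i, eval x (f i) = 0

/-- normic forms -/
def Normic {k : Type u} [Field k] (e : ℕ) (g : MvPolynomial (Fin e) k) : Prop :=
  g.IsHomogeneous e ∧ ∀ x : Fin e → k, eval x g = 0 → x = 0

section norm

variable {k K : Type u} [Field k] [Field K] [Algebra k K] {e : ℕ} (b : Module.Basis (Fin e) k K)

/-- the matrix of the general element -/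
noncomputable def gm : Matrix (Fin e) (Fin e) (MvPolynomial (Fin e) k) :=
  fun i j => ∑ s, C (Algebra.leftMulMatrix b (b s) i j) * X s

lemma gm_hom : (gm b).det.IsHomogeneous e := by
  rw [Matrix.det_apply]
  apply IsHomogeneous.sum
  intro σ _
  have h1 : (∏ i, gm b (σ i) i).IsHomogeneous (∑ _i : Fin e, 1) := by
    apply IsHomogeneous.prod
    intro i _
    unfold gm
    apply IsHomogeneous.sum
    intro s _
    have := (isHomogeneous_C (Fin e) (Algebra.leftMulMatrix b (b s) (σ i) i)).mul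
      (isHomogeneous_X k s)
    rwa [zero_add] at this
  have h2 : ∑ _i : Fin e, 1 = e := by simp
  rw [h2] at h1
  rcases Int.units_eq_one_or (Equiv.Perm.sign σ) with h | h
  · rw [h, one_smul]
    exact h1
  · rw [h]
    have : (-1 : ℤˣ) • ∏ i, gm b (σ i) i = -∏ i, gm b (σ i) i := by
      rw [Units.neg_smul, one_smul]
    rw [this]
    exact h1.neg

lemma gm_eval (x : Fin e → k) : eval x (gm b).det = Algebra.norm k (∑ s, x s • b s) := by
  rw [Algebra.norm_eq_matrix_det b, RingHom.map_det]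
  congr 1
  ext i j
  rw [map_sum, Matrix.sum_apply]
  show eval x (gm b i j) = _
  unfold gm
  rw [map_sum]
  refine Finset.sum_congr rfl fun s _ => ?_
  rw [map_mul, eval_C, eval_X, map_smul, Matrix.smul_apply, smul_eq_mul, mul_comm]

lemma gm_normic [FiniteDimensional k K] : Normic e (gm b).det := by
  refine ⟨gm_hom b, fun x hx => ?_⟩
  rw [gm_eval, Algebra.norm_eq_zero_iff] at hx
  funext s
  exact Fintype.linearIndependent_iff.mp b.linearIndependent x hx s

end norm

lemma normic_start {k : Type u} [Field k] (h : ¬ IsAlgClosed k) :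
    ∃ (e : ℕ) (g : MvPolynomial (Fin e) k), 2 ≤ e ∧ Normic e g := by
  have h1 : ∃ p : Polynomial k, p.Monic ∧ Irreducible p ∧ ∀ x, p.eval x ≠ 0 := by
    by_contra hcon
    push Not at hcon
    exact h (IsAlgClosed.of_exists_root k fun p hp hi => hcon p hp hi)
  obtain ⟨p, hpm, hp, hroot⟩ := h1
  have : Fact (Irreducible p) := ⟨hp⟩
  have hd : 2 ≤ p.natDegree := by
    by_contra hcon
    have h2 : p.natDegree = 1 := by
      have := hp.natDegree_pos
      omega
    have h3 : p.degree = 1 := by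
      rw [Polynomial.degree_eq_natDegree hp.ne_zero, h2]
      rfl
    obtain ⟨x, hx⟩ := Polynomial.exists_root_of_degree_eq_one h3
    exact hroot x hx
  have : FiniteDimensional k (AdjoinRoot p) := (AdjoinRoot.powerBasis hp.ne_zero).finite
  have hdim : (AdjoinRoot.powerBasis hp.ne_zero).dim = p.natDegree :=
    AdjoinRoot.powerBasis_dim hp.ne_zero
  refine ⟨(AdjoinRoot.powerBasis hp.ne_zero).dim, _, hdim ▸ hd,
    gm_normic (AdjoinRoot.powerBasis hp.ne_zero).basis⟩

lemma normic_sq {k : Type u} [Field k] {e : ℕ} {g : MvPolynomial (Fin e) k} (h : Normic e g) :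
    ∃ g' : MvPolynomial (Fin (e * e)) k, Normic (e * e) g' := by
  refine ⟨aeval (fun a : Fin e => rename (fun b : Fin e => finProdFinEquiv (a, b)) g) g, ?_, ?_⟩
  · exact h.1.aeval (n := e) _ fun a => h.1.rename_isHomogeneous
  · intro x hx
    rw [eval_comp] at hx
    have h1 := h.2 _ hx
    funext q
    have h2 := congrFun h1 (finProdFinEquiv.symm q).1
    rw [eval_rename] at h2
    have h3 := congrFun (h.2 _ h2) (finProdFinEquiv.symm q).2
    have h4 : (x ∘ fun b : Fin e => finProdFinEquiv ((finProdFinEquiv.symm q).1, b))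
        (finProdFinEquiv.symm q).2 = x q := by
      show x (finProdFinEquiv ((finProdFinEquiv.symm q).1, (finProdFinEquiv.symm q).2)) = x q
      rw [Prod.mk.eta, Equiv.apply_symm_apply]
    exact h4.symm.trans h3

lemma normic_large {k : Type u} [Field k] (h : ¬ IsAlgClosed k) (M : ℕ) :
    ∃ (e : ℕ) (g : MvPolynomial (Fin e) k), M ≤ e ∧ Normic e g := by
  have key : ∀ M : ℕ, ∃ (e : ℕ) (g : MvPolynomial (Fin e) k), M + 2 ≤ e ∧ Normic e g := by
    intro M
    induction M with
    | zero => simpa using normic_start h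
    | succ M ih =>
      obtain ⟨e, g, he, hg⟩ := ih
      obtain ⟨g', hg'⟩ := normic_sq hg
      exact ⟨e * e, g', by nlinarith, hg'⟩
  obtain ⟨e, g, he, hg⟩ := key M
  exact ⟨e, g, by omega, hg⟩

theorem hq_of_c1 {k : Type u} [Field k] (hk : C1 k) : HQ k := by
  intro N r f hf hN
  by_cases hac : IsAlgClosed k
  · refine H81.CY.exists_zero_fin f (fun j => ?_) (by rw [Fintype.card_fin]; omega)
    have h1 := (hf j).coeff_eq_zero (d := 0) (by simp)
    have h2 : eval (0 : Fin N → k) (f j) = coeff 0 (f j) := by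
      rw [MvPolynomial.eval_zero, MvPolynomial.constantCoeff_eq]
    rw [h2, h1]
  · rcases Nat.eq_zero_or_pos r with hr | hr
    · subst hr
      exact ⟨fun _ => 1, fun h => one_ne_zero (congrFun h ⟨0, by omega⟩), fun i => i.elim0⟩
    obtain ⟨e, g, he, hg⟩ := normic_large hac (2 * r * r)
    obtain ⟨t, ht⟩ : ∃ t, t = e / r := ⟨_, rfl⟩
    have ht2 : 2 * r ≤ t := by
      rw [ht, Nat.le_div_iff_mul_le hr]
      exact he
    have hte : t * r ≤ e := by
      rw [ht]
      exact Nat.div_mul_le_self e r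
    have hte2 : e < t * r + r := by
      have := Nat.lt_div_mul_add (a := e) hr
      rw [ht]
      exact this
    -- the forms
    have hdiv : ∀ a : Fin e, a.1 < t * r → a.1 / r < t := fun a ha =>
      Nat.div_lt_of_lt_mul (by rw [mul_comm]; exact ha)
    obtain ⟨φ, hφ⟩ : ∃ φ : Fin e → MvPolynomial (Fin (t * N)) k, φ = fun a =>
      if ha : a.1 < t * r then
        rename (fun j : Fin N => finProdFinEquiv ((⟨a.1 / r, hdiv a ha⟩ : Fin t), j))
          (f ⟨a.1 % r, Nat.mod_lt _ hr⟩) else 0 := ⟨_, rfl⟩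
    have hφh : ∀ a, (φ a).IsHomogeneous 2 := by
      intro a
      rw [hφ]
      simp only
      split_ifs with ha
      · exact (hf _).rename_isHomogeneous
      · exact isHomogeneous_zero _ _ _
    obtain ⟨x, hx0, hx⟩ := hk (t * N) (2 * e) (aeval φ g) (by
      have : 0 < t * r := Nat.mul_pos (by omega) hr
      omega) (hg.1.aeval (n := 2) _ hφh) (by nlinarith)
    rw [eval_comp] at hx
    have h1 := hg.2 _ hx
    -- a nonzero block
    obtain ⟨p, hp⟩ := Function.ne_iff.mp hx0
    obtain ⟨⟨α, j⟩, rfl⟩ := finProdFinEquiv.surjective p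
    refine ⟨fun j => x (finProdFinEquiv (α, j)), fun h => hp (congrFun h j), fun i => ?_⟩
    have hi : α.1 * r + i.1 < t * r := by
      have h3 : (α.1 + 1) * r ≤ t * r := Nat.mul_le_mul_right r α.2
      have h4 := i.2
      nlinarith
    have h2 := congrFun h1 ⟨α.1 * r + i.1, by omega⟩
    rw [hφ] at h2
    simp only at h2
    rw [dif_pos hi, eval_rename] at h2
    have e1 : (α.1 * r + i.1) / r = α.1 := by
      rw [mul_comm, Nat.mul_add_div hr, Nat.div_eq_of_lt i.2, add_zero]
    have e2 : (α.1 * r + i.1) % r = i.1 := by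
      rw [mul_comm, Nat.mul_add_mod, Nat.mod_eq_of_lt i.2]
    have e3 : (⟨(α.1 * r + i.1) / r, hdiv ⟨α.1 * r + i.1, by omega⟩ hi⟩ : Fin t) = α :=
      Fin.ext e1
    have e4 : (⟨(α.1 * r + i.1) % r, Nat.mod_lt _ hr⟩ : Fin r) = i := Fin.ext e2
    rw [e3, e4] at h2
    exact h2

end Pool.Agent.H17.IQ
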