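import Pool.Agent.H17.IQ.Core

/-!
# Lines through a point in all but one of the quadrics
-/

set_option autoImplicit false

namespace Pool.Agent.H17.IQ

open MvPolynomial H13.RE

universe u

variable {k : Type u} [Field k] {N m : ℕ}

/-- the system of the lines through `P` -/
noncomputable def cone (L : List (MvPolynomial (Fin N) k)) (q' : Fin m → MvPolynomial (Fin N) k)
    (P : Fin N → k) (φ : MvPolynomial (Fin N) k) : List (MvPolynomial (Fin N) k) :=
  φ :: (L ++ List.ofFn fun i => bf (q' i) P)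

/-- `y` is a residual point on the line through `P` and `v` -/
def Over (q0 : MvPolynomial (Fin N) k) (P v y : Fin N → k) : Prop :=
  y ≠ 0 ∧ ∃ a b : k, y = a • P + b • v ∧ a * eval v (bf q0 P) + b * eval v q0 = 0

/-- the situation -/
structure Sit (L : List (MvPolynomial (Fin N) k)) (q : Fin (m + 1) → MvPolynomial (Fin N) k)
    (q' : Fin m → MvPolynomial (Fin N) k) (q0 : MvPolynomial (Fin N) k) (P : Fin N → k)
    (φ : MvPolynomial (Fin N) k) : Prop where
  hL : ∀ l ∈ L, l.IsHomogeneous 1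
  hq' : ∀ i, (q' i).IsHomogeneous 2
  hq0 : q0.IsHomogeneous 2
  hφ : φ.IsHomogeneous 1
  P0 : P ≠ 0
  PL : ∀ l ∈ L, eval P l = 0
  Pq' : ∀ i, eval P (q' i) = 0
  Pq0 : eval P q0 = 0
  Pφ : eval P φ = 1
  hz : ∀ v : Fin N → Polynomial k, (∀ i, aeval v (q i) = 0) ↔
    (aeval v q0 = 0 ∧ ∀ i, aeval v (q' i) = 0)

variable {L : List (MvPolynomial (Fin N) k)} {q : Fin (m + 1) → MvPolynomial (Fin N) k}
  {q' : Fin m → MvPolynomial (Fin N) k} {q0 : MvPolynomial (Fin N) k} {P : Fin N → k}
  {φ : MvPolynomial (Fin N) k}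

lemma Sit.hzk (S : Sit L q q' q0 P φ) (x : Fin N → k) : (∀ i, eval x (q i) = 0) ↔
    (eval x q0 = 0 ∧ ∀ i, eval x (q' i) = 0) := by
  have h := S.hz (emb x)
  simp only [aeval_emb, Polynomial.C_eq_zero] at h
  exact h

lemma mem_cone {v : Fin N → k} (h : Pt (cone L q' P φ) q' v) :
    v ≠ 0 ∧ eval v φ = 0 ∧ (∀ l ∈ L, eval v l = 0) ∧ (∀ i, eval v (bf (q' i) P) = 0) ∧
      ∀ i, eval v (q' i) = 0 := by
  refine ⟨h.1, h.2.1 _ (by unfold cone; exact List.mem_cons_self), fun l hl => h.2.1 _ ?_,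
    fun i => h.2.1 _ ?_, h.2.2⟩
  · unfold cone
    exact List.mem_cons_of_mem _ (List.mem_append_left _ hl)
  · unfold cone
    refine List.mem_cons_of_mem _ (List.mem_append_right _ ?_)
    rw [List.mem_ofFn]
    exact ⟨i, rfl⟩

lemma cone_poly {c : Fin N → Polynomial k} (h : ∀ l ∈ cone L q' P φ, aeval c l = 0) :
    aeval c φ = 0 ∧ (∀ l ∈ L, aeval c l = 0) ∧ (∀ i, aeval c (bf (q' i) P) = 0) := by
  refine ⟨h _ (by unfold cone; exact List.mem_cons_self), fun l hl => h _ ?_,
    fun i => h _ ?_⟩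
  · unfold cone
    exact List.mem_cons_of_mem _ (List.mem_append_left _ hl)
  · unfold cone
    refine List.mem_cons_of_mem _ (List.mem_append_right _ ?_)
    rw [List.mem_ofFn]
    exact ⟨i, rfl⟩

/-- curves in the union of the lines through `P` -/
lemma Sit.curve (S : Sit L q q' q0 P φ) {c : Fin N → Polynomial k}
    (hL : ∀ l ∈ L, aeval c l = 0) (hb : ∀ i, aeval c (bf (q' i) P) = 0)
    (hq : ∀ i, aeval c (q' i) = 0) (α β : Polynomial k)
    (h : α * aeval c (bf q0 P) + β * aeval c q0 = 0) :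
    (∀ l ∈ L, aeval (comb P α β c) l = 0) ∧ ∀ i, aeval (comb P α β c) (q i) = 0 := by
  constructor
  · intro l hl
    rw [lin_comb (S.hL l hl), S.PL l hl, hL l hl]
    simp
  · rw [S.hz]
    constructor
    · rw [quad_comb S.hq0 S.Pq0]
      have : α * β * aeval c (bf q0 P) + β ^ 2 * aeval c q0 =
          β * (α * aeval c (bf q0 P) + β * aeval c q0) := by ring
      rw [this, h, mul_zero]
    · intro i
      rw [quad_comb (S.hq' i) (S.Pq' i), hb i, hq i]
      simp

lemma emb_vec {v : Fin N → k} (h : Pt (cone L q' P φ) q' v) :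
    (∀ l ∈ L, aeval (emb v) l = 0) ∧ (∀ i, aeval (emb v) (bf (q' i) P) = 0) ∧
      ∀ i, aeval (emb v) (q' i) = 0 := by
  obtain ⟨-, -, h2, h3, h4⟩ := mem_cone h
  refine ⟨fun l hl => ?_, fun i => ?_, fun i => ?_⟩
  · rw [aeval_emb, h2 l hl, map_zero]
  · rw [aeval_emb, h3 i, map_zero]
  · rw [aeval_emb, h4 i, map_zero]

lemma comb_emb_eval (v : Fin N → k) (α β : Polynomial k) (t : k) :
    (fun j => (comb P α β (emb v) j).eval t) = α.eval t • P + β.eval t • v := by
  rw [comb_eval, emb_eval]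

lemma Sit.over_pt (S : Sit L q q' q0 P φ) {v y : Fin N → k} (hv : Pt (cone L q' P φ) q' v)
    (h : Over q0 P v y) : Pt L q y := by
  obtain ⟨hy, a, b, rfl, hab⟩ := h
  obtain ⟨h1, h2, h3⟩ := emb_vec hv
  have hc := S.curve h1 h2 h3 (Polynomial.C a) (Polynomial.C b) (by
    rw [aeval_emb, aeval_emb, ← map_mul, ← map_mul, ← map_add, hab, map_zero])
  have he : comb P (Polynomial.C a) (Polynomial.C b) (emb v) = emb (a • P + b • v) := by
    funext j
    simp [comb, emb]
  rw [he] at hc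
  refine ⟨hy, fun l hl => ?_, fun i => ?_⟩
  · have := hc.1 l hl
    rw [aeval_emb, Polynomial.C_eq_zero] at this
    exact this
  · have := hc.2 i
    rw [aeval_emb, Polynomial.C_eq_zero] at this
    exact this

lemma Sit.indep (S : Sit L q q' q0 P φ) {v : Fin N → k} (hv : Pt (cone L q' P φ) q' v)
    {a b : k} (h : a • P + b • v = 0) : a = 0 ∧ b = 0 := by
  obtain ⟨h0, h1, -⟩ := mem_cone hv
  have h2 := lin_comb_k S.hφ a b P v
  rw [h, S.Pφ, h1] at h2
  have h3 : eval (0 : Fin N → k) φ = 0 := by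
    have := lin_smul S.hφ 0 P
    rwa [zero_smul, zero_mul] at this
  rw [h3] at h2
  have ha : a = 0 := by simpa using h2.symm
  refine ⟨ha, ?_⟩
  rw [ha, zero_smul, zero_add] at h
  exact (smul_eq_zero.mp h).resolve_right h0

lemma Sit.over_exists (S : Sit L q q' q0 P φ) {v : Fin N → k}
    (hv : Pt (cone L q' P φ) q' v) : ∃ y, Over q0 P v y := by
  by_cases h : eval v q0 = 0 ∧ eval v (bf q0 P) = 0
  · exact ⟨P, S.P0, 1, 0, by rw [one_smul, zero_smul, add_zero], by rw [h.2]; ring⟩
  · refine ⟨eval v q0 • P + (-eval v (bf q0 P)) • v, fun h0 => h ?_, _, _, rfl, by ring⟩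
    obtain ⟨h1, h2⟩ := S.indep hv h0
    exact ⟨h1, neg_eq_zero.mp h2⟩

/-- two residual points on the same line -/
lemma Sit.same (S : Sit L q q' q0 P φ) {v y y' : Fin N → k} (hv : Pt (cone L q' P φ) q' v)
    (h : Over q0 P v y) (h' : Over q0 P v y') : RE L q y y' := by
  have hp := S.over_pt hv h
  have hp' := S.over_pt hv h'
  obtain ⟨hy, a, b, rfl, hab⟩ := h
  obtain ⟨hy', a', b', rfl, hab'⟩ := h'
  obtain ⟨h1, h2, h3⟩ := emb_vec hv
  refine Relation.EqvGen.rel _ _ ⟨hp, hp', comb P (Polynomial.C a + Polynomial.X *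
    Polynomial.C (a' - a)) (Polynomial.C b + Polynomial.X * Polynomial.C (b' - b)) (emb v), ?_, ?_,
    ⟨1, one_ne_zero, ?_⟩, ⟨1, one_ne_zero, ?_⟩⟩
  · refine (S.curve h1 h2 h3 _ _ ?_).1
    rw [aeval_emb, aeval_emb]
    have e : (Polynomial.C a + Polynomial.X * Polynomial.C (a' - a)) *
        Polynomial.C (eval v (bf q0 P)) + (Polynomial.C b + Polynomial.X *
        Polynomial.C (b' - b)) * Polynomial.C (eval v q0) =
        (1 - Polynomial.X) * Polynomial.C (a * eval v (bf q0 P) + b * eval v q0) +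
        Polynomial.X * Polynomial.C (a' * eval v (bf q0 P) + b' * eval v q0) := by
      simp only [map_sub, map_add, map_mul]
      ring
    rw [e, hab, hab']
    simp
  · refine (S.curve h1 h2 h3 _ _ ?_).2
    rw [aeval_emb, aeval_emb]
    have e : (Polynomial.C a + Polynomial.X * Polynomial.C (a' - a)) *
        Polynomial.C (eval v (bf q0 P)) + (Polynomial.C b + Polynomial.X *
        Polynomial.C (b' - b)) * Polynomial.C (eval v q0) =
        (1 - Polynomial.X) * Polynomial.C (a * eval v (bf q0 P) + b * eval v q0) +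
        Polynomial.X * Polynomial.C (a' * eval v (bf q0 P) + b' * eval v q0) := by
      simp only [map_sub, map_add, map_mul]
      ring
    rw [e, hab, hab']
    simp
  · rw [comb_emb_eval, one_smul]
    simp
  · rw [comb_emb_eval, one_smul]
    simp

/-- division by the greatest common divisor -/
lemma coprime_pair (α β : Polynomial k) (h : α ≠ 0 ∨ β ≠ 0) :
    ∃ g α' β' : Polynomial k, g ≠ 0 ∧ α = g * α' ∧ β = g * β' ∧ IsCoprime α' β' := by
  classical
  have hg : EuclideanDomain.gcd α β ≠ 0 := by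
    intro h0
    rw [EuclideanDomain.gcd_eq_zero_iff] at h0
    rcases h with h | h
    · exact h h0.1
    · exact h h0.2
  obtain ⟨α', hα⟩ := EuclideanDomain.gcd_dvd_left α β
  obtain ⟨β', hβ⟩ := EuclideanDomain.gcd_dvd_right α β
  refine ⟨EuclideanDomain.gcd α β, α', β', hg, hα, hβ, ?_⟩
  have hb := EuclideanDomain.gcd_eq_gcd_ab α β
  refine ⟨EuclideanDomain.gcdA α β, EuclideanDomain.gcdB α β, ?_⟩
  apply mul_left_cancel₀ hg
  rw [mul_one]
  calc EuclideanDomain.gcd α β * (EuclideanDomain.gcdA α β * α' + EuclideanDomain.gcdB α β * β')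
      = (EuclideanDomain.gcd α β * α') * EuclideanDomain.gcdA α β +
        (EuclideanDomain.gcd α β * β') * EuclideanDomain.gcdB α β := by ring
    _ = α * EuclideanDomain.gcdA α β + β * EuclideanDomain.gcdB α β := by rw [← hα, ← hβ]
    _ = EuclideanDomain.gcd α β := hb.symm

lemma coprime_eval {α β : Polynomial k} (h : IsCoprime α β) (t : k) :
    α.eval t ≠ 0 ∨ β.eval t ≠ 0 := by
  obtain ⟨u, w, huw⟩ := h
  by_contra hcon
  push Not at hcon
  have := congrArg (Polynomial.eval t) huw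
  rw [Polynomial.eval_add, Polynomial.eval_mul, Polynomial.eval_mul, hcon.1, hcon.2,
    Polynomial.eval_one] at this
  simp at this

/-- residual points over the two ends of a curve -/
lemma Sit.move (S : Sit L q q' q0 P φ) {v w : Fin N → k} (hv : Pt (cone L q' P φ) q' v)
    (hw : Pt (cone L q' P φ) q' w) (h : Lk (cone L q' P φ) q' v w) :
    ∃ y y', Over q0 P v y ∧ Over q0 P w y' ∧ RE L q y y' := by
  obtain ⟨c, hcL, hcq, ⟨s, hs0, hs⟩, ⟨t, ht0, ht⟩⟩ := h
  obtain ⟨-, h1, h2⟩ := cone_poly hcL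
  -- values of the forms at the two ends
  have ev : ∀ (τ z : k) (u : Fin N → k), (fun j => (c j).eval τ) = z • u →
      (aeval c q0).eval τ = z ^ 2 * eval u q0 ∧
      (aeval c (bf q0 P)).eval τ = z * eval u (bf q0 P) := by
    intro τ z u hu
    rw [eval_aeval, eval_aeval, hu, quad_smul S.hq0, lin_smul (bf_hom S.hq0 P)]
    exact ⟨rfl, rfl⟩
  by_cases h0 : aeval c q0 = 0 ∧ aeval c (bf q0 P) = 0
  · -- the lines are contained in `X`
    have key : ∀ (τ z : k) (u : Fin N → k), z ≠ 0 → (fun j => (c j).eval τ) = z • u →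
        Over q0 P u P := by
      intro τ z u hz hu
      obtain ⟨e1, e2⟩ := ev τ z u hu
      rw [h0.2, Polynomial.eval_zero] at e2
      have e3 : eval u (bf q0 P) = 0 := (mul_eq_zero.mp e2.symm).resolve_left hz
      exact ⟨S.P0, 1, 0, by rw [one_smul, zero_smul, add_zero], by rw [e3]; ring⟩
    exact ⟨P, P, key 0 s v hs0 hs, key 1 t w ht0 ht, Relation.EqvGen.refl _⟩
  · obtain ⟨g, α, β, hg, hα, hβ, hco⟩ := coprime_pair (aeval c q0) (-aeval c (bf q0 P)) (by
      by_contra hcon
      push Not at hcon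
      exact h0 ⟨hcon.1, neg_eq_zero.mp hcon.2⟩)
    have hrel : α * aeval c (bf q0 P) + β * aeval c q0 = 0 := by
      have hβ' : aeval c (bf q0 P) = -(g * β) := by rw [← hβ, neg_neg]
      rw [hβ', hα]
      ring
    have hcur := S.curve h1 h2 hcq α β hrel
    -- the value at an end is a residual point
    have key : ∀ (τ z : k) (u : Fin N → k), z ≠ 0 → (fun j => (c j).eval τ) = z • u →
        Pt (cone L q' P φ) q' u →
        Over q0 P u (fun j => (comb P α β c j).eval τ) := by
      intro τ z u hz hu hpu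
      obtain ⟨e1, e2⟩ := ev τ z u hu
      rw [comb_eval, hu, smul_smul]
      refine ⟨fun hcon => ?_, α.eval τ, β.eval τ * z, rfl, ?_⟩
      · obtain ⟨i1, i2⟩ := S.indep hpu hcon
        rcases coprime_eval hco τ with h3 | h3
        · exact h3 i1
        · exact (mul_ne_zero h3 hz) i2
      · have := congrArg (Polynomial.eval τ) hrel
        rw [Polynomial.eval_add, Polynomial.eval_mul, Polynomial.eval_mul, e1, e2,
          Polynomial.eval_zero] at this
        apply mul_left_cancel₀ hz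
        rw [mul_zero, ← this]
        ring
    have o1 := key 0 s v hs0 hs hv
    have o2 := key 1 t w ht0 ht hw
    refine ⟨_, _, o1, o2, Relation.EqvGen.rel _ _ ⟨S.over_pt hv o1, S.over_pt hw o2,
      comb P α β c, hcur.1, hcur.2, ⟨1, one_ne_zero, by rw [one_smul]⟩,
      ⟨1, one_ne_zero, by rw [one_smul]⟩⟩⟩

/-- R-equivalence of lines through `P` gives R-equivalence of residual points -/
lemma Sit.transport (S : Sit L q q' q0 P φ) {v w : Fin N → k}
    (h : RE (cone L q' P φ) q' v w) : Pt (cone L q' P φ) q' v →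
    ∀ y y', Over q0 P v y → Over q0 P w y' → RE L q y y' := by
  have hh := h
  unfold RE at h
  induction h with
  | rel a b hab =>
    intro _ y y' hy hy'
    obtain ⟨z, z', h1, h2, h3⟩ := S.move hab.1 hab.2.1 hab.2.2
    exact Relation.EqvGen.trans _ _ _ (S.same hab.1 hy h1)
      (Relation.EqvGen.trans _ _ _ h3 (S.same hab.2.1 h2 hy'))
  | refl a =>
    intro ha y y' hy hy'
    exact S.same ha hy hy'
  | symm a b h ih =>
    intro hb y y' hy hy'
    have ha : Pt (cone L q' P φ) q' a := (RE.pt_iff h).mpr hb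
    exact Relation.EqvGen.symm _ _ (ih h ha y' y hy' hy)
  | trans a b c h1 h2 ih1 ih2 =>
    intro ha y y' hy hy'
    have hb : Pt (cone L q' P φ) q' b := (RE.pt_iff h1).mp ha
    obtain ⟨z, hz⟩ := S.over_exists hb
    exact Relation.EqvGen.trans _ _ _ (ih1 h1 ha y z hy hz) (ih2 h2 hb z y' hz hy')

end Pool.Agent.H17.IQ
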